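import Pool.Agent.P8H26.WT.Unf

/-! Package PTW of project WT: the pointwise bound. -/

set_option autoImplicit false

open UpperHalfPlane MeasureTheory CongruenceSubgroup Metric
open scoped MatrixGroups

namespace Pool.Agent.P8H26.WT

open Pool.Agent.P8H49.WT

/-- Lebesgue measure and the invariant measure -/
theorem area (F : ℂ → ENNReal) {s : Set ℂ} (hs : MeasurableSet s) (hsub : ∀ x ∈ s, 0 < x.im) :
    ∫⁻ x in s, F x =
      ∫⁻ τ in (fun τ : ℍ => (τ : ℂ)) ⁻¹' s, ENNReal.ofReal (τ.im ^ 2) * F (τ : ℂ) := by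
  have hmp : MeasurePreserving UpperHalfPlane.coe (volume.comap UpperHalfPlane.coe)
      (volume.restrict (.range UpperHalfPlane.coe)) :=
    ⟨measurable_coe, by rw [measurableEmbedding_coe.map_comap]⟩
  have himg : UpperHalfPlane.coe '' ((fun τ : ℍ => (τ : ℂ)) ⁻¹' s) = s := by
    ext x
    constructor
    · rintro ⟨τ, h, rfl⟩
      exact h
    · intro hx
      exact ⟨⟨x, hsub x hx⟩, hx, rfl⟩
  have hm : MeasurableSet ((fun τ : ℍ => (τ : ℂ)) ⁻¹' s) := measurable_coe hs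
  have hden : Measurable fun z : ℍ => ((((1 / NNReal.mk z.im z.im_pos.le) ^ 2 : NNReal)) : ENNReal) := by
    refine Measurable.coe_nnreal_ennreal ?_
    refine Measurable.pow_const ?_ _
    refine Measurable.div measurable_const ?_
    exact Measurable.subtype_mk UpperHalfPlane.continuous_im.measurable
  rw [volume_def, setLIntegral_withDensity_eq_setLIntegral_mul_non_measurable _ hden _ hm
    (Filter.Eventually.of_forall fun _ => ENNReal.coe_lt_top)]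
  have h1 : ∀ τ : ℍ, ((fun z : ℍ => ((((1 / NNReal.mk z.im z.im_pos.le) ^ 2 : NNReal)) : ENNReal)) *
      fun τ : ℍ => ENNReal.ofReal (τ.im ^ 2) * F (τ : ℂ)) τ = F (τ : ℂ) := by
    intro τ
    rw [Pi.mul_apply, ← mul_assoc]
    have h2 : ((((1 / NNReal.mk τ.im τ.im_pos.le) ^ 2 : NNReal)) : ENNReal) *
        ENNReal.ofReal (τ.im ^ 2) = 1 := by
      have e1 : ENNReal.ofReal (τ.im ^ 2) = (((NNReal.mk τ.im τ.im_pos.le) ^ 2 : NNReal) : ENNReal) := by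
        rw [ENNReal.ofReal_eq_coe_nnreal (by positivity)]
        congr 1
      rw [e1, ← ENNReal.coe_mul, ← mul_pow, one_div, inv_mul_cancel₀, one_pow, ENNReal.coe_one]
      intro h
      exact τ.im_pos.ne' (congrArg NNReal.toReal h)
    rw [h2, one_mul]
  rw [lintegral_congr h1]
  change _ = ∫⁻ τ in (fun τ : ℍ => (τ : ℂ)) ⁻¹' s, F (UpperHalfPlane.coe τ) ∂(volume.comap UpperHalfPlane.coe)
  rw [hmp.setLIntegral_comp_emb measurableEmbedding_coe, himg, Measure.restrict_restrict hs,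
    Set.inter_eq_self_of_subset_left]
  intro x hx
  exact ⟨⟨x, hsub x hx⟩, rfl⟩

theorem rpow_sqrt {y : ℝ} (hy : 0 ≤ y) : y ^ (3 / 2 : ℝ) = √y ^ 3 := by
  rw [Real.sqrt_eq_rpow, ← Real.rpow_natCast, ← Real.rpow_mul hy]
  norm_num

theorem hol_cont {f : ℍ → ℂ} (hf : Hol f) : Continuous f := by
  have h1 : ContinuousOn (fun z : ℂ => f (ofComplex z)) {z : ℂ | 0 < z.im} := hf.continuousOn
  have h2 : f = fun τ : ℍ => (fun z : ℂ => f (ofComplex z)) (τ : ℂ) := by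
    funext τ
    simp only
    rw [ofComplex_apply]
  rw [h2]
  exact h1.comp_continuous UpperHalfPlane.continuous_coe fun τ => τ.im_pos

/-- the function of the mean value argument -/
noncomputable def hh (f : ℍ → ℂ) (κ : SL(2, ℤ)) (w : ℂ) : ℂ :=
  f (ofComplex (((κ 0 0 : ℤ) * w + (κ 0 1 : ℤ)) / ((κ 1 0 : ℤ) * w + (κ 1 1 : ℤ)))) ^ 2 /
    ((κ 1 0 : ℤ) * w + (κ 1 1 : ℤ)) ^ 3

theorem coe_sl (κ : SL(2, ℤ)) (τ : ℍ) :
    ((κ • τ : ℍ) : ℂ) = ((κ 0 0 : ℤ) * (τ : ℂ) + (κ 0 1 : ℤ)) / ((κ 1 0 : ℤ) * (τ : ℂ) + (κ 1 1 : ℤ)) := by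
  rw [coe_specialLinearGroup_apply]
  simp

theorem den_ne (κ : SL(2, ℤ)) (τ : ℍ) : ((κ 1 0 : ℤ) : ℂ) * (τ : ℂ) + ((κ 1 1 : ℤ) : ℂ) ≠ 0 := by
  have h := denom_ne_zero (κ : GL (Fin 2) ℝ) τ
  rw [ModularGroup.denom_apply] at h
  exact h

theorem im_sl (κ : SL(2, ℤ)) (τ : ℍ) :
    (κ • τ).im = τ.im / ‖((κ 1 0 : ℤ) : ℂ) * (τ : ℂ) + ((κ 1 1 : ℤ) : ℂ)‖ ^ 2 := by
  rw [ModularGroup.im_smul_eq_div_normSq, ModularGroup.denom_apply, Complex.normSq_eq_norm_sq]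

theorem hh_apply (f : ℍ → ℂ) (κ : SL(2, ℤ)) (τ : ℍ) :
    hh f κ τ = f (κ • τ) ^ 2 / ((κ 1 0 : ℤ) * (τ : ℂ) + (κ 1 1 : ℤ)) ^ 3 := by
  unfold hh
  rw [← coe_sl, ofComplex_apply]

theorem hh_norm (f : ℍ → ℂ) (κ : SL(2, ℤ)) (τ : ℍ) :
    ‖hh f κ τ‖ * √τ.im ^ 3 = G f (κ • τ) := by
  have hD : 0 < ‖((κ 1 0 : ℤ) : ℂ) * (τ : ℂ) + ((κ 1 1 : ℤ) : ℂ)‖ := norm_pos_iff.2 (den_ne κ τ)
  unfold G
  rw [hh_apply, rpow_sqrt (κ • τ).im_pos.le, im_sl, norm_div, norm_pow, norm_pow,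
    Real.sqrt_div' _ (by positivity), Real.sqrt_sq hD.le, div_pow]
  ring

theorem hh_diff {f : ℍ → ℂ} (hf : Hol f) (κ : SL(2, ℤ)) :
    DifferentiableOn ℂ (hh f κ) {z : ℂ | 0 < z.im} := by
  have hden : ∀ w ∈ {z : ℂ | 0 < z.im}, ((κ 1 0 : ℤ) : ℂ) * w + ((κ 1 1 : ℤ) : ℂ) ≠ 0 := by
    intro w hw
    exact den_ne κ ⟨w, hw⟩
  have hmob : DifferentiableOn ℂ (fun w : ℂ => (((κ 0 0 : ℤ) : ℂ) * w + ((κ 0 1 : ℤ) : ℂ)) /
      (((κ 1 0 : ℤ) : ℂ) * w + ((κ 1 1 : ℤ) : ℂ))) {z : ℂ | 0 < z.im} := by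
    refine DifferentiableOn.div ?_ ?_ hden
    · fun_prop
    · fun_prop
  have hmaps : Set.MapsTo (fun w : ℂ => (((κ 0 0 : ℤ) : ℂ) * w + ((κ 0 1 : ℤ) : ℂ)) /
      (((κ 1 0 : ℤ) : ℂ) * w + ((κ 1 1 : ℤ) : ℂ))) {z : ℂ | 0 < z.im} {z : ℂ | 0 < z.im} := by
    intro w hw
    have h1 := coe_sl κ ⟨w, hw⟩
    change 0 < Complex.im _
    have h2 : (κ • (⟨w, hw⟩ : ℍ) : ℍ).im = Complex.im _ := congrArg Complex.im h1
    rw [← h2]
    exact (κ • (⟨w, hw⟩ : ℍ) : ℍ).im_pos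
  unfold hh
  refine DifferentiableOn.div ?_ ?_ fun w hw => pow_ne_zero _ (hden w hw)
  · exact (hf.comp hmob hmaps).pow 2
  · fun_prop

theorem ptw : S_UNF → S_CNT → S_SMV → S_PTW := by
  intro hU hC hS N f hN hf hinv z γ hγ
  set w0 : ℍ := γ • z with hw0
  set y0 : ℝ := w0.im with hy0
  have hy : 0 < y0 := w0.im_pos
  set s : ℝ := √y0 with hs
  have hs0 : 0 < s := Real.sqrt_pos.2 hy
  have hss : s ^ 2 = y0 := Real.sq_sqrt hy.le
  set κ : SL(2, ℤ) := γ⁻¹ with hκ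
  set X : ENNReal := ENNReal.ofReal (100 * y0) * nrm N f with hX
  have hball : ∀ x ∈ ball (w0 : ℂ) y0, 0 < x.im := by
    intro x hx
    have h1 : |(x - (w0 : ℂ)).im| < y0 := by
      refine (Complex.abs_im_le_norm _).trans_lt ?_
      rwa [← dist_eq_norm]
    rw [Complex.sub_im] at h1
    have h2 := (abs_lt.1 h1).1
    have h3 : (w0 : ℂ).im = y0 := rfl
    linarith
  have hball' : ∀ x ∈ ball (w0 : ℂ) (y0 / 2), x.im ≤ 3 * y0 / 2 ∧ 0 < x.im := by
    intro x hx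
    refine ⟨?_, hball x (ball_subset_ball (by linarith) hx)⟩
    have h1 : |(x - (w0 : ℂ)).im| < y0 / 2 := by
      refine (Complex.abs_im_le_norm _).trans_lt ?_
      rwa [← dist_eq_norm]
    rw [Complex.sub_im] at h1
    have h2 := (abs_lt.1 h1).2
    have h3 : (w0 : ℂ).im = y0 := rfl
    linarith
  -- mean value
  have hmv := hS (hh f κ) w0 (y0 / 2) (by positivity) (by
    rw [mul_div_cancel₀ _ (two_ne_zero)]
    exact (hh_diff hf κ).mono fun x hx => hball x hx)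
  -- the integral
  set B : Set ℍ := (fun τ : ℍ => (τ : ℂ)) ⁻¹' ball (w0 : ℂ) (y0 / 2) with hB
  have hBm : MeasurableSet B := measurable_coe measurableSet_ball
  have hGm : Measurable fun w : ℍ => ENNReal.ofReal (G f (κ • w)) :=
    ((G_cont (hol_cont hf)).measurable.comp (mp_smul κ).measurable).ennreal_ofReal
  have h1 : ∫⁻ x in ball (w0 : ℂ) (y0 / 2), ENNReal.ofReal ‖hh f κ x‖ ≤
      ENNReal.ofReal (√(3 / 2) * s) * ∫⁻ τ in B, ENNReal.ofReal (G f (κ • τ)) := by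
    rw [area _ measurableSet_ball fun x hx => (hball' x hx).2, ← lintegral_const_mul _ hGm]
    refine setLIntegral_mono' hBm fun τ hτ => ?_
    have hi : 0 < τ.im := τ.im_pos
    have hsq : √τ.im ^ 2 = τ.im := Real.sq_sqrt hi.le
    rw [← ENNReal.ofReal_mul (by positivity), ← ENNReal.ofReal_mul (by positivity)]
    refine ENNReal.ofReal_le_ofReal ?_
    have h2 : √τ.im ≤ √(3 / 2) * s := by
      rw [hs, ← Real.sqrt_mul (by norm_num)]
      refine Real.sqrt_le_sqrt ?_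
      have := (hball' τ hτ).1
      have h3 : (τ : ℂ).im = τ.im := rfl
      linarith
    have h4 : τ.im ^ 2 * ‖hh f κ τ‖ = √τ.im * G f (κ • τ) := by
      rw [← hh_norm]
      nth_rewrite 1 [← hsq]
      ring
    rw [h4]
    have h5 : 0 ≤ G f (κ • τ) := by
      unfold G
      have := (κ • τ).im_pos
      positivity
    exact mul_le_mul_of_nonneg_right h2 h5
  have h2 : ∫⁻ τ in B, ENNReal.ofReal (G f (κ • τ)) ≤ X := by
    have h3 := (mp_smul γ).setLIntegral_comp_preimage hBm hGm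
    have h4 : ∀ a : ℍ, κ • γ • a = a := fun a => by
      rw [hκ, inv_smul_smul]
    simp only [h4] at h3
    rw [← h3]
    have hB'm : MeasurableSet ((fun z : ℍ => γ • z) ⁻¹' B) := (mp_smul γ).measurable hBm
    refine hU N f hN (hol_cont hf) hinv _ _ hB'm fun w hw => ?_
    obtain ⟨h5, h6⟩ := hC w0 hγ w hw
    have h7 : {γ' : SL(2, ℤ) | γ' • w ∈ (fun z : ℍ => γ • z) ⁻¹' B} =
        (fun δ => γ⁻¹ * δ) '' {γ' : SL(2, ℤ) | ‖((γ' • w : ℍ) : ℂ) - (w0 : ℂ)‖ < w0.im / 2} := by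
      ext δ
      constructor
      · intro h
        refine ⟨γ * δ, ?_, by simp only [inv_mul_cancel_left]⟩
        have h8 : γ • δ • w ∈ B := h
        rw [smul_smul] at h8
        have h9 : dist (((γ * δ) • w : ℍ) : ℂ) (w0 : ℂ) < y0 / 2 := h8
        rw [dist_eq_norm] at h9
        exact h9
      · rintro ⟨δ', h, rfl⟩
        change γ • (γ⁻¹ * δ') • w ∈ B
        rw [smul_smul, mul_inv_cancel_left]
        change dist ((δ' • w : ℍ) : ℂ) (w0 : ℂ) < y0 / 2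
        rw [dist_eq_norm]
        exact h
    rw [h7]
    refine ⟨h5.image _, ?_⟩
    rw [Set.ncard_image_of_injective _ (mul_right_injective γ⁻¹)]
    exact h6
  -- conclusion
  have hz : κ • w0 = z := by rw [hκ, hw0, inv_smul_smul]
  have h3 := hh_norm f κ w0
  rw [hz] at h3
  have hG : G f z = ‖hh f κ w0‖ * s ^ 3 := h3.symm
  have hc : 0 < Real.pi / 4 * s := by positivity
  have h4 : ENNReal.ofReal (Real.pi / 4 * s * G f z) ≤
      ENNReal.ofReal (√(3 / 2) * s) * X := by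
    refine le_trans (le_of_eq ?_) (hmv.trans (h1.trans (by gcongr)))
    congr 1
    rw [hG, ← hss]
    ring
  have h5 : ENNReal.ofReal (G f z) =
      ENNReal.ofReal ((Real.pi / 4 * s)⁻¹) * ENNReal.ofReal (Real.pi / 4 * s * G f z) := by
    rw [← ENNReal.ofReal_mul (by positivity), inv_mul_cancel_left₀ hc.ne']
  have h6 : (Real.pi / 4 * s)⁻¹ * (√(3 / 2) * s) ≤ 2 := by
    rw [inv_mul_le_iff₀ hc]
    have h7 : √(3 / 2) ≤ 3 / 2 := by
      rw [Real.sqrt_le_left (by norm_num)]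
      norm_num
    have h8 := Real.pi_gt_three
    nlinarith [mul_le_mul_of_nonneg_right h7 hs0.le, mul_lt_mul_of_pos_right h8 hs0]
  calc ENNReal.ofReal (G f z)
      ≤ ENNReal.ofReal ((Real.pi / 4 * s)⁻¹) * (ENNReal.ofReal (√(3 / 2) * s) * X) := by
        rw [h5]
        gcongr
    _ = ENNReal.ofReal ((Real.pi / 4 * s)⁻¹ * (√(3 / 2) * s)) * X := by
        rw [← mul_assoc, ← ENNReal.ofReal_mul (by positivity)]
    _ ≤ ENNReal.ofReal 2 * X := by
        gcongr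
    _ = ENNReal.ofReal (200 * y0) * nrm N f := by
        rw [hX, ← mul_assoc, ← ENNReal.ofReal_mul (by norm_num)]
        congr 2
        ring

end Pool.Agent.P8H26.WT
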