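import Pool.Agent.P8H49.WT.Stm

/-! Package UNF of project WT: unfolding. -/

set_option autoImplicit false

open UpperHalfPlane MeasureTheory CongruenceSubgroup
open scoped MatrixGroups

namespace Pool.Agent.P8H26.WT

open Pool.Agent.P8H49.WT

theorem mp_smul (γ : SL(2, ℤ)) : MeasurePreserving (fun z : ℍ => γ • z) volume volume :=
  measurePreserving_smul (γ : GL (Fin 2) ℝ) (volume : Measure ℍ)

instance : Countable SL(2, ℤ) := by
  have : Countable (Matrix (Fin 2) (Fin 2) ℤ) := inferInstanceAs (Countable (Fin 2 → Fin 2 → ℤ))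
  exact Subtype.countable

theorem G_cont {f : ℍ → ℂ} (hf : Continuous f) : Continuous (G f) := by
  have h : Continuous fun z : ℍ => z.im := UpperHalfPlane.continuous_im
  refine (hf.norm.pow 2).mul ?_
  exact h.rpow_const fun z => Or.inl z.im_pos.ne'

/-- change of variables -/
theorem change (γ : SL(2, ℤ)) {F : ℍ → ENNReal} (hF : Measurable F) :
    ∫⁻ z, F (γ • z) = ∫⁻ z, F z :=
  (mp_smul γ).lintegral_comp hF

theorem unf : S_UNF := by
  intro N f hN hf hinv B M hB hM
  classical
  have : Countable (SL(2, ℤ) ⧸ Gamma0 N) := QuotientGroup.mk_surjective.countable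
  set F : ℍ → ENNReal := fun z => ENNReal.ofReal (G f z) with hF
  have hFm : Measurable F := (G_cont hf).measurable.ennreal_ofReal
  have hfd : MeasurableSet ModularGroup.fd := ModularGroup.isClosed_fd.measurableSet
  have hsm : ∀ γ : SL(2, ℤ), Measurable fun z : ℍ => γ • z := fun γ => (mp_smul γ).measurable
  have hcov : B ⊆ ⋃ γ : SL(2, ℤ), B ∩ (fun z : ℍ => γ • z) ⁻¹' ModularGroup.fd := by
    intro z hz
    obtain ⟨γ, hγ⟩ := ModularGroup.exists_smul_mem_fd z
    exact Set.mem_iUnion.2 ⟨γ, hz, hγ⟩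
  have hq : ∀ (γ : SL(2, ℤ)) (w : ℍ),
      F (γ⁻¹ • w) = F ((QuotientGroup.mk γ : SL(2, ℤ) ⧸ Gamma0 N).out⁻¹ • w) := by
    intro γ w
    obtain ⟨δ, hδ⟩ := QuotientGroup.mk_out_eq_mul (Gamma0 N) γ
    have h1 : γ⁻¹ • w = (δ : SL(2, ℤ)) •
        ((QuotientGroup.mk γ : SL(2, ℤ) ⧸ Gamma0 N).out⁻¹ • w) := by
      rw [hδ, smul_smul, mul_inv_rev, ← mul_assoc, mul_inv_cancel, one_mul]
    rw [h1, hF]
    simp only
    rw [hinv _ δ.2]
  calc ∫⁻ z in B, F z
      ≤ ∫⁻ z in ⋃ γ : SL(2, ℤ), B ∩ (fun z : ℍ => γ • z) ⁻¹' ModularGroup.fd, F z :=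
        lintegral_mono_set hcov
    _ ≤ ∑' γ : SL(2, ℤ), ∫⁻ z in B ∩ (fun z : ℍ => γ • z) ⁻¹' ModularGroup.fd, F z :=
        lintegral_iUnion_le _ _
    _ = ∑' γ : SL(2, ℤ), ∫⁻ w in ModularGroup.fd, B.indicator 1 (γ⁻¹ • w) * F (γ⁻¹ • w) := by
        refine tsum_congr fun γ => ?_
        have hms : MeasurableSet (B ∩ (fun z : ℍ => γ • z) ⁻¹' ModularGroup.fd) :=
          hB.inter (hsm γ hfd)
        rw [← lintegral_indicator hms, ← lintegral_indicator hfd]
        have hm : Measurable (ModularGroup.fd.indicator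
            fun w => B.indicator 1 (γ⁻¹ • w) * F (γ⁻¹ • w)) := by
          refine Measurable.indicator ?_ hfd
          exact ((measurable_one.indicator hB).comp (hsm γ⁻¹)).mul (hFm.comp (hsm γ⁻¹))
        rw [← change γ hm]
        refine lintegral_congr fun z => ?_
        by_cases h1 : γ • z ∈ ModularGroup.fd
        · by_cases h2 : z ∈ B
          · rw [Set.indicator_of_mem (show z ∈ B ∩ _ from ⟨h2, h1⟩), Set.indicator_of_mem h1]
            simp [h2]
          · rw [Set.indicator_of_notMem (fun h => h2 h.1), Set.indicator_of_mem h1]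
            simp [h2]
        · rw [Set.indicator_of_notMem (fun h => h1 h.2), Set.indicator_of_notMem h1]
    _ = ∫⁻ w in ModularGroup.fd, ∑' γ : SL(2, ℤ), B.indicator 1 (γ⁻¹ • w) * F (γ⁻¹ • w) := by
        rw [lintegral_tsum]
        intro γ
        exact (((measurable_one.indicator hB).comp (hsm γ⁻¹)).mul
          (hFm.comp (hsm γ⁻¹))).aemeasurable
    _ ≤ ∫⁻ w in ModularGroup.fd, ENNReal.ofReal M *
          ∑' q : SL(2, ℤ) ⧸ Gamma0 N, F (q.out⁻¹ • w) := by
        refine setLIntegral_mono' hfd fun w hw => ?_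
        obtain ⟨hfin, hcard⟩ := hM w hw
        calc ∑' γ : SL(2, ℤ), B.indicator 1 (γ⁻¹ • w) * F (γ⁻¹ • w)
            ≤ ∑' γ : SL(2, ℤ), B.indicator 1 (γ⁻¹ • w) *
                ∑' q : SL(2, ℤ) ⧸ Gamma0 N, F (q.out⁻¹ • w) := by
              refine ENNReal.tsum_le_tsum fun γ => ?_
              rw [hq γ w]
              gcongr
              exact ENNReal.le_tsum (f := fun q : SL(2, ℤ) ⧸ Gamma0 N => F (q.out⁻¹ • w))
                (QuotientGroup.mk γ)
          _ = (∑' γ : SL(2, ℤ), B.indicator (1 : ℍ → ENNReal) (γ⁻¹ • w)) *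
                ∑' q : SL(2, ℤ) ⧸ Gamma0 N, F (q.out⁻¹ • w) := ENNReal.tsum_mul_right
          _ ≤ _ := by
              gcongr
              have h1 : ∑' γ : SL(2, ℤ), B.indicator (1 : ℍ → ENNReal) (γ⁻¹ • w) =
                  ∑' γ : SL(2, ℤ), B.indicator (1 : ℍ → ENNReal) (γ • w) :=
                (Equiv.inv SL(2, ℤ)).tsum_eq
                  (fun γ => B.indicator (1 : ℍ → ENNReal) (γ • w))
              have h2 : ∀ γ : SL(2, ℤ), B.indicator (1 : ℍ → ENNReal) (γ • w) =
                  Set.indicator {γ : SL(2, ℤ) | γ • w ∈ B} 1 γ := by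
                intro γ
                by_cases h : γ • w ∈ B
                · rw [Set.indicator_of_mem h, Set.indicator_of_mem (by exact h)]
                  rfl
                · rw [Set.indicator_of_notMem h, Set.indicator_of_notMem (by exact h)]
              rw [h1, tsum_congr h2, ← tsum_subtype, Pi.one_def, ENNReal.tsum_set_one]
              rw [← hfin.cast_ncard_eq, ENat.toENNReal_coe, ← ENNReal.ofReal_natCast]
              exact ENNReal.ofReal_le_ofReal hcard
    _ = ENNReal.ofReal M * nrm N f := by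
        rw [lintegral_const_mul' _ _ ENNReal.ofReal_ne_top, lintegral_tsum]
        · rfl
        · intro q
          exact (hFm.comp (hsm _)).aemeasurable

end Pool.Agent.P8H26.WT
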